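import Mathlib
import Pool.Agent.H926.T.Main7

/-!
# The motivated Mumford–Tate conjecture for the motives of the abelian varieties built from factors of
# one of dimension at most seven

Let `X` be an abelian variety of any dimension over a number field `L ⊆ ℂ` (or over a finitely
generated field). We assume that there is a complex abelian variety `A` of dimension at most seven such
that each simple factor of `X` over `ℂ` (that is, each simple abelian variety with a homomorphism to `X`
with finite kernel) is a factor of `A`. For instance `X` can be any form of any power of `A`, or of any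
product of powers of the factors of `A`; so all powers `Y ^ k` of an abelian variety `Y` of dimension at
most seven are among these `X`. There is one condition: no simple factor of `A` of dimension four or six
has `ℤ` as its endomorphism ring. No condition is imposed on the endomorphisms in other dimensions, on
the Mumford–Tate group, on the complex multiplication or on the reductions of `X`.

**Theorem.** For all primes `ℓ` all Tate tensors of `X` are `ℚ_ℓ`-linear combinations of Hodge tensors.
Here a Tate tensor is a multilinear form in `2 m` variables on the Tate module `ℚ_ℓ ⊗ H_1(X, ℚ)` on which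
a subgroup of finite index of the Galois group acts through the `m`-th power of the cyclotomic character
(in particular, all classes in `H^{2 j}(X ^ k)(j)` fixed by a subgroup of finite index, for all `j` and
`k`, give such tensors). Since the algebraic monodromy group is reductive it is determined by its
tensors, so that its identity component is the Mumford–Tate group.

For abelian motives, such as `h^1(X)` and all André motives generated by the `h^1(X)`, Hodge classes are
motivated (André, Deligne), and the equalities of the problem are equivalent to the statement on Tate and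
Hodge tensors proved here (André); this equivalence is not part of the Lean text.

The proof. The Lie algebra `𝔤` generated by the Hodge–Tate elements over `ℂ_ℓ` kills the Tate tensors;
it is generated by involutions, it has the commutant of the Lie algebra `𝔥` of the Hodge group, and the
traces of the involutions are the same. In dimension at most seven the commutant is so large that `𝔥`
kills all tensors which `𝔤` kills. For the factors of type I, II and for most of the factors of type IV
this is by the methods of the library (elements of rank one in the components of `𝔤`, tensor products of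
planes). The new cases are type III (multiplicity two in dimension four, multiplicity three in dimension
six; and these with all other factors), where the components of `𝔤` act on quaternionic spaces and are
irreducible subalgebras of `𝔰𝔬(4)` and `𝔰𝔬(6)`, generated by half-integral cocharacters: they are all of
`𝔰𝔬(4)` and `𝔰𝔬(6)`; fields of degree four and six and dimension six, with components in dimension two and
three; and the products, for which a general position argument of Kolchin–Goursat type is used.
-/

namespace Pool.Agent.Results.MP_b8862a_ag.FactorsOfDimensionSeven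

open Module TensorProduct
open Pool.Agent.H204R3.CM (HodgeMul)
open Pool.Agent.Y90 (AV)
open Pool.Agent.Y90.St (IsHom IsPolarization)
open Pool.Agent.R915 (IsFactor)
open Pool.Agent.Y224.TS.St (IsTateModule)

section definitions

variable {H T : Type} [AddCommGroup H] [Module ℚ H] [AddCommGroup T] [Module ℂ T] {ℓ : ℕ}
  [Fact ℓ.Prime] {Γ κ : Type} [Group Γ]

/-- The form `φ` on the Tate module `ℚ_ℓ ⊗ H_1(X, ℚ)`, in variables indexed by `κ`, is a **Tate tensor**
of weight `m`: a subgroup of finite index of `Γ` acts on it through the `m`-th power of the cyclotomic
character `χ`. -/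
def IsTateTensor (ρ : Representation ℚ_[ℓ] Γ (ℚ_[ℓ] ⊗[ℚ] H)) (χ : Γ →* ℚ_[ℓ]) (m : ℕ)
    (φ : (κ → ℚ_[ℓ] ⊗[ℚ] H) → ℚ_[ℓ]) : Prop :=
  ∃ Δ : Subgroup Γ, Δ.FiniteIndex ∧ ∀ g ∈ Δ, ∀ v, φ (fun k => ρ g (v k)) = χ g ^ m * φ v

/-- The form `φ` is a `ℚ_ℓ`-linear combination of **Hodge tensors** of `X`. -/
def HodgeCombination (per : H →+ T) (φ : (κ → ℚ_[ℓ] ⊗[ℚ] H) → ℚ_[ℓ]) : Prop :=
  ∃ (n : ℕ) (c : Fin n → ℚ_[ℓ]) (f : Fin n → MultilinearMap ℚ (fun _ : κ => H) ℚ),
    (∀ j, HodgeMul per (f j)) ∧ ∀ v : κ → H, φ (fun k => 1 ⊗ₜ v k) = ∑ j, c j * (f j v : ℚ)

/-- All factors of `A` of dimensions four and six have endomorphisms besides the scalars. -/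
def NoTrivialEndomorphisms (A : AV) : Prop :=
  ∀ Y, IsFactor Y A → finrank ℂ Y.T = 4 ∨ finrank ℂ Y.T = 6 →
    ∃ f, IsHom Y.per Y.per f ∧ ∀ c : ℚ, f ≠ c • 1

end definitions

/-- **The Mumford–Tate conjecture** for the abelian varieties `X` over number fields (given as complex
abelian varieties with a polarization `E` and the representation `ρ` of the Galois group `Γ` on the Tate
module `ℚ_ℓ ⊗ H_1(X, ℚ)`, with the known properties of the Tate module, `IsTateModule`; `χ` is the
cyclotomic character, and `ℂ` is identified with an algebraic closure of `ℚ_ℓ`), all of whose simple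
factors over `ℂ` are factors of a complex abelian variety `A` of dimension at most seven without simple
factors of dimension four or six with only the trivial endomorphisms: all Tate tensors are combinations
of Hodge tensors. -/
theorem result (A : AV) (h7 : finrank ℂ A.T ≤ 7) (hA : NoTrivialEndomorphisms A)
    (X : AV) (hX : ∀ Y, IsFactor Y X → IsFactor Y A)
    (E : X.H → X.H → ℚ) (hE : IsPolarization X.per E)
    (ℓ : ℕ) [Fact ℓ.Prime] [Algebra ℚ_[ℓ] ℂ] [Algebra.IsAlgebraic ℚ_[ℓ] ℂ]
    {Γ : Type} [Group Γ] (ρ : Representation ℚ_[ℓ] Γ (ℚ_[ℓ] ⊗[ℚ] X.H)) (χ : Γ →* ℚ_[ℓ])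
    (hρ : IsTateModule X.per E ρ χ) {κ : Type} [Finite κ] {m : ℕ} (hκ : Nat.card κ = 2 * m)
    (φ : MultilinearMap ℚ_[ℓ] (fun _ : κ => ℚ_[ℓ] ⊗[ℚ] X.H) ℚ_[ℓ]) (hφ : IsTateTensor ρ χ m φ) :
    HodgeCombination X.per φ :=
  Pool.Agent.H926.T.mt7 A X h7 hA hX hE hρ hκ φ hφ

end Pool.Agent.Results.MP_b8862a_ag.FactorsOfDimensionSeven
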