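import Mathlib
import Pool.Agent.H853.OS.Fin

/-!
# The Mumford-Tate conjecture at almost all primes `ℓ`, from the Galois groups of Frobenius polynomials

Let `M i` be finitely many pure motives of weight `w i` over a finitely generated field `k` of
characteristic zero (objects of the category of André), `Γ` the absolute Galois group of `k`, `ρ ℓ i` its
action on the `ℓ`-adic realization of `M i` (of dimension `n i`), and `𝔤 ℓ` the Lie algebra (over `ℚ_ℓ`) of
the motivic Galois group `G_mot` of the sum of the `M i` over the algebraic closure of `k`.  The property
`Motivic (ρ ℓ) (𝔤 ℓ)` (structure `IsMotivic`, from the library) states the properties which are used: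
`𝔤 ℓ` is a Lie algebra, it respects the direct sum, it is reductive (trace form nondegenerate, completely
reducible), it consists of all endomorphisms which kill the tensors killed by `𝔤 ℓ`, and these tensors are
Tate tensors (fixed by a subgroup of finite index of `Γ`).  Nothing is assumed on the type of `G_mot`, on the
Hodge numbers and on polarizations, and NOTHING is assumed on the semisimplicity of the `ℓ`-adic
representations and on their endomorphisms (the Tate conjecture for `End (M i)`): these are conclusions.

The hypotheses are of two kinds.  The first kind concerns two or three elements of `Γ`, for instance
Frobenius elements:

* there is an element of *maximal rank* (`MaximalRank`: the number of multiplicatively independent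
  eigenvalues is the rank of `G_mot`), or (`Regular`) there is an element which is *strongly regular* (the
  conjugation by `γ` has on `𝔤 ℓ ⊗ ℂ` only simple eigenvalues apart from the eigenvalue `1`, which are
  not roots of unity, and is commutative for the eigenvalue `1`: the roots of `G_mot` take different values),
  an element which is pure of the weights `w i`, and the elements of `𝔤 ℓ` which act as scalars on all
  `M i` are the multiples of the weight operator (this is always so for pure motives: if `X` acts as the
  scalar `c i` on `M i` and as `μ` on the Lefschetz motive then `2 c i = w i μ`, because of the
  polarizations; `Motivic` does not mention the Lefschetz motive);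
* `Different`: for `i ≠ j` some element has a root of `P i` no power of which is a power of a root of
  `P j` (so `M i` and `M j` are not isomorphic over a finite extension of `k`; for a motive with
  multiplicities the theorem is applied to the sum of the different factors).

The second kind of hypotheses concerns the orbits on the eigenvalues of elements whose characteristic
polynomials `P i` on the `M i` are *neat* (simple roots, no quotient of different roots is a root of
unity).  The definitions are in `H853/OS/Defs.lean` and `H853/OS/Sys.lean`.

**Theorem.** (1) Let `G` be a group of automorphisms of the algebraic closure of `ℚ_ℓ` over `ℚ_ℓ` (for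
example all of them, or the powers of one) such that for each `i` and each `0 < d < n i` there is an element
of `Γ` with a neat polynomial `P i` such that no union of `G`-orbits on the roots of `P i` has `d`
elements, and for each prime divisor `p` of `n i` there is such an element and an orbit of length prime to
`p` (`OrbitsAt`; if `G` is the full group of automorphisms, the orbits are the irreducible factors of `P i`
over `ℚ_ℓ`).  Then the conjecture holds at `ℓ` (`MumfordTate`): the `ℓ`-adic realization is semisimple, for
all subgroups of finite index, and the Tate tensors in all degrees are exactly the tensors killed by
`𝔤 ℓ`, that is, the connected component of the `ℓ`-adic monodromy group is `G_mot`.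

(2) Let `L` be a finite Galois extension of `ℚ` which contains the roots of the polynomials `P i` of finitely
many elements with rational characteristic polynomials (Frobenius elements), and let `T` be a set of
elements `τ` of `Gal (L/ℚ)` whose orbits satisfy the condition in (1).  Then the conjecture holds for a set
of primes `ℓ` of lower density at least `|T| / [L : ℚ]`.

(3) Let `𝒲` be a set of elements with neat rational polynomials `P i`, such that for each number field `M`
there is one in `𝒲` whose splitting field (the field generated by the roots of all `P i`) is linearly
disjoint from `M`, and such that for each member of `𝒲`, each `i` and each `0 < d < n i` there is an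
automorphism of the splitting field without stable set of `d` roots of `P i`.  Then the conjecture holds for
a set of primes `ℓ` of density ONE.

The condition in (3) is a condition on the Galois group of `P i` as a permutation group.  It is satisfied by
the full symmetric group, and by all groups which contain a cycle of length `n i`, but also by the Weyl
group of `E₆` on the `27` roots (elements with the orbits `9, 9, 9` and `1, 1, 5, 5, 5, 5, 5`; there is no
`27`-cycle, and an irreducible polynomial `P i` over `ℚ_ℓ` is not possible at an unramified `ℓ`), by the Weyl
group of `E₇` on the `56` roots (orbits `14, 14, 14, 14` and `1, 1, 9, 9, 9, 9, 9, 9` and `2, 18, 18, 18`), by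
the Weyl groups of the symplectic and even orthogonal groups on the weights of the standard
representation, by the symmetric groups on the weights of the exterior powers (checked up to dimension
`200`), and by the Weyl groups of type `D` on the weights of the half-spin representations (checked up to
dimension `128`).  So for motives with a minuscule representation of such a group `G_mot` (an inner form), for
which one expects that the Galois groups of most Frobenius polynomials are the Weyl group and that their
splitting fields are independent, the conjecture at `100` percent of the primes can be proved from the
Frobenius polynomials alone.

In comparison: the library module `MP_de8692_ag.RankAndPolynomials` has, for one `ℓ` and an element of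
maximal rank, the same conclusion if some element has irreducible polynomials `P i` over `ℚ_ℓ` and if
others have roots in `ℚ_ℓ` (a special case of (1), for `G` the full group of automorphisms).
Our `MP_c1bb77_ag.StronglyRegularFrobenius` and `MP_c184fc_ag.StronglyRegularDensity` reduce the
conjecture to its part for endomorphisms.  `MP_fa5bba_nt.DensityOne` has conditions on orbits of the same
kind for the irreducibility of automorphic Galois representations.

The proof.  Let `Δ` be a subgroup of finite index, and `γ` an element with neat polynomial; a power `γ ^ N`
is in `Δ`.  (a) If `U` is a `Δ`-stable subspace of `M i`, of dimension `d`, the roots `x` of `P i` for which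
`x ^ N` is a root of the characteristic polynomial of `γ ^ N` on `U` are a `G`-stable set with `d` elements;
so `M i` is irreducible under `Δ`.  (b) An endomorphism `P` which commutes with `Δ` commutes with `γ ^ N` and
so has the eigenvectors of `γ`; this gives a map from the roots of `P i` to the eigenvalues of `P`,
compatible with automorphisms, for which the number of roots over a given eigenvalue does not depend on
`γ`.  By the condition on the `d` the group `G` is transitive on the eigenvalues of `P`, their number
divides the order of every `G`-stable set of roots, and so it is one: `P` is a scalar.  (c) By `Different`
there are no homomorphisms between the different `M i`.  So the realization is semisimple and the Tate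
endomorphisms are the scalars on the `M i`; they commute with `𝔤 ℓ`.  Now the theorems on elements of
maximal rank (library) and on strongly regular elements (`H853.SR`) show that `𝔤 ℓ` and the Lie algebra of
the monodromy group differ at most by scalars, and the weight operator is in the latter because of the
purity.  For (2), `G` is generated by an automorphism which induces `τ`, a Frobenius element at `ℓ`
(Chebotarev, in the library).  For (3) one takes, for each number field `M`, members of `𝒲` for all pairs
`(i, d)`, one after the other, such that their splitting fields and `M` are independent, and one more; on
the compositum there is an automorphism which induces the given automorphisms for the pairs `(i, d)` and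
the identity on the last field, and the theorem on the density for families of independent fields of
bounded degree applies.
-/

set_option autoImplicit false

namespace Pool.Agent.Results.MP_b8862a_ag.FrobeniusOrbits

open Pool.Agent.Y114.RM Pool.Agent.H853.OS Pool.Agent.W522.C

theorem result {Γ : Type} [Group Γ] [TopologicalSpace Γ] [IsTopologicalGroup Γ] [CompactSpace Γ]
    {ι : Type} [Fintype ι] [DecidableEq ι] {n : ι → ℕ}
    -- the `ℓ`-adic realizations, and the Lie algebras of the motivic Galois group, for all `ℓ`
    (ρ : ∀ (ℓ : ℕ) [Fact ℓ.Prime], Reps Γ n ℓ) (hρ : ∀ (ℓ : ℕ) [Fact ℓ.Prime], Conts (ρ ℓ))
    (𝔤 : ∀ (ℓ : ℕ) [Fact ℓ.Prime], EndSpace n ℓ)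
    (h𝔤 : ∀ (ℓ : ℕ) [Fact ℓ.Prime], Motivic (ρ ℓ) (𝔤 ℓ))
    -- the weights
    (w : ι → ℤ) :
    -- one prime `ℓ`
    (∀ (ℓ : ℕ) [Fact ℓ.Prime], MaximalRankAt (ρ ℓ) (𝔤 ℓ) ∨ RegularAt (ρ ℓ) (𝔤 ℓ) w →
      DifferentAt (ρ ℓ) →
      ∀ G : LocalGroup ℓ, OrbitsAt (ρ ℓ) G → MumfordTate (ρ ℓ) (𝔤 ℓ)) ∧
    (MaximalRank ρ 𝔤 ∨ Regular ρ 𝔤 w → Different ρ →
      -- a positive proportion of the primes
      (∀ W : Witness ρ, LowerDensity (goodPrimes ρ 𝔤) (W.T.card / W.degree)) ∧
      -- almost all primes
      ∀ 𝒲 : Set (Element ρ), Independent 𝒲 → (∀ e ∈ 𝒲, e.Rich) →
        LowerDensity (goodPrimes ρ 𝔤) 1) :=
  ⟨fun ℓ _ hb hd G hG => local_result (ρ ℓ) (hρ ℓ) (𝔤 ℓ) (h𝔤 ℓ) w hb hd G hG,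
    fun hb hd => ⟨fun W => density_witness ρ hρ 𝔤 h𝔤 w hb hd W,
      fun _ hind hrich => density_rich ρ hρ 𝔤 h𝔤 w hb hd hind hrich⟩⟩

end Pool.Agent.Results.MP_b8862a_ag.FrobeniusOrbits
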