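import Pool.Agent.H851.KT.Main
import Pool.Agent.H851.KT.Com

/-!
# The motivated Mumford-Tate conjecture for motives of K3 type is equivalent to its part on endomorphisms

Let `M` be a motive of K3 type over a number field `K`: after a twist it has the Hodge numbers
`(1, n - 2, 1)`. For example `M` is `H^2(X)` for a surface (or a variety of any dimension) `X` with
`h^{2,0} = 1`, or its primitive or transcendental part, or a direct factor of `H^2(X)` with `h^{2,0} = 1` of
a surface `X` with larger `p_g`, or `H^4(X)(1)` for a cubic fourfold. Nothing is assumed about families,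
moduli, Picard numbers, or the endomorphisms of `M`.

Let `V` be the Hodge realization of `M(1)`, `V_ℓ` the `ℓ`-adic realization, `MT`, `G_mot` and `G_ℓ` the
Mumford-Tate group, the motivic Galois group and the Zariski closure of the image of the Galois group,
for `M(1)`, and `q` a polarization.

**Theorem.** (1) If `V_ℓ` is semisimple, then the Lie algebra of `G_ℓ` consists of all endomorphisms of `V_ℓ`
which are skew for `q` and commute with all Tate endomorphisms: all Tate classes on all tensor
powers of `M` come from `q` and from Tate endomorphisms. Any two Tate endomorphisms commute on the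
transcendental part of `V_ℓ` (the orthogonal complement of the Tate classes).

(2) (Zarhin) The Lie algebra of `MT` consists of all skew endomorphisms of `V` which commute with all
endomorphisms of the Hodge structure. It is the Lie algebra of `G_mot` if and only if all endomorphisms of
the Hodge structure are motivated.

(3) If `V_ℓ` is semisimple, then `Lie G_mot ⊗ ℚ_ℓ = Lie G_ℓ` if and only if all Tate endomorphisms
are linear combinations of motivated endomorphisms. So the statement of the problem, on Lie algebras, for
`M` and all motives in the tannakian category generated by `M(1)`, is equivalent to the statement about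
the endomorphisms of `M`: Hodge endomorphisms and Tate endomorphisms are motivated.

(4) If `K = ℚ` then nothing has to be assumed about `V_ℓ`: if all Tate endomorphisms are linear
combinations of motivated endomorphisms then `V_ℓ` is semisimple and `Lie G_mot ⊗ ℚ_ℓ = Lie G_ℓ`.

The known results of this kind (K3 surfaces, hyper-Kähler varieties: Tankeev, André) use the construction
of Kuga and Satake and the theorem of Faltings. There is no such construction for a general motive
of K3 type. Here it is not assumed that the ranks of the groups are equal, nor that there is a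
relation between the Tate endomorphisms and the Hodge endomorphisms.

The objects are given by their linear algebra data: `K3Hodge` is the polarized Hodge structure, `IsK3Type`
the `ℓ`-adic realization, with its standard properties at almost all places (integral Frobenius
polynomials, weights, and the theorem of Mazur, Berthelot and Ogus on Newton and Hodge polygons), and
`IsMotivicLie` the Lie algebra of `G_mot` (it contains the Hodge operator and `Lie G_ℓ`, it is skew for `q`,
and the rational classes killed by it are Tate classes).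

The proof. Let `L` be the Lie algebra of `G_ℓ` and `𝔥` the Lie algebra of all skew endomorphisms which commute
with the commutant of `L`; the trace form is nondegenerate on `𝔥`, because the associative algebra generated
by `L` is semisimple. The elements of `L ⊗ C`, for the algebraic closure `C` of `ℚ_ℓ`, obtained
from an ordinary Frobenius element near `1` and an additive function on the group generated by its
eigenvalues, include, for every eigenvalue `β ≠ 1`, the operator `N` which is `1` and `-1` on the lines
`C v` and `C v'` of the simple eigenvalues `β` and `1 / β` and zero on the other eigenspaces. Let `L_i` be the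
eigenspaces of `ad N`. The sum of `C v`, `L_{-1} v` and `L_{-1} L_{-1} v` is stable under `L`, so under `𝔥`,
and therefore `𝔥_{-1} v = L_{-1} v` and `𝔥_{-1} = L_{-1}`, and similarly `𝔥_1 = L_1`. So the homogeneous
parts of degree `± 1` of an element `Z` of `𝔥` which is orthogonal to `L` vanish, and `Z v = 0`. The
elements `Z` orthogonal to `L` kill a subspace which contains all such `v`. Ordinary Frobenius elements are
dense near `1`, so an open subgroup of the Galois group acts unipotently, hence trivially, on a
complement of this subspace, and `Z` kills the Tate classes, too. So `Z = 0` and `L = 𝔥`. For the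
Hodge structure the same argument works, with the Hodge operator in place of `N`.
-/

set_option autoImplicit false

namespace Pool.Agent.Results.MP_b8862a_ag.KThreeEndomorphisms

open Matrix Polynomial NumberField IsDedekindDomain
open Pool.Agent.H851 Pool.Agent.H851.K3 Pool.Agent.H851.KT
open Pool.Agent.NH56.HY (GK mtLie)

/-- **Motives of K3 type: the Mumford-Tate conjecture and endomorphisms.** -/
theorem result :
    -- (1) the `ℓ`-adic realization, over any number field
    (∀ {K : Type} [Field K] [NumberField K] {ℓ : ℕ} [Fact ℓ.Prime] {n : Type} [Fintype n]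
      [DecidableEq n] (q : Matrix n n ℚ_[ℓ]) (S : Finset ℕ) (χ : GK K →* ℚ_[ℓ])
      (Pol : HeightOneSpectrum (𝓞 K) → ℤ[X]) (ρ : GK K →* Matrix n n ℚ_[ℓ]),
      IsK3Type q S χ Pol ρ → Semisimple ρ →
      (∀ X, X ∈ tateLie χ ρ ↔
        Xᵀ * q + q * X = 0 ∧ ∀ Y, IsTateEnd ρ Y → X * Y = Y * X) ∧
      (∀ Y Y', IsTateEnd ρ Y → IsTateEnd ρ Y' →
        ∀ x ∈ orth q (tate χ ρ), (Y * Y') *ᵥ x = (Y' * Y) *ᵥ x)) ∧
    -- (2) the Mumford-Tate Lie algebra
    (∀ {n : Type} [Fintype n] [DecidableEq n] (H : K3Hodge n) (X : Matrix n n ℚ),
      X ∈ mtLie H.D ↔ Xᵀ * H.q + H.q * X = 0 ∧ ∀ Y, H.IsHodgeEnd Y → X * Y = Y * X) ∧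
    -- (3) the three Lie algebras
    (∀ {K : Type} [Field K] [NumberField K] {ℓ : ℕ} [Fact ℓ.Prime] {n : Type} [Fintype n]
      [DecidableEq n] (H : K3Hodge n) (S : Finset ℕ) (χ : GK K →* ℚ_[ℓ])
      (Pol : HeightOneSpectrum (𝓞 K) → ℤ[X]) (ρ : GK K →* Matrix n n ℚ_[ℓ])
      (𝔪 : Submodule ℚ (Matrix n n ℚ)),
      IsK3Type (H.q.map (algebraMap ℚ ℚ_[ℓ])) S χ Pol ρ → IsMotivicLie H χ ρ 𝔪 →
      (mtLie H.D = 𝔪 ↔ ∀ Y, H.IsHodgeEnd Y → Y ∈ endo 𝔪) ∧
      (Semisimple ρ → (ext ℚ_[ℓ] 𝔪 = tateLie χ ρ ↔
        ∀ Y, IsTateEnd ρ Y → Y ∈ ext ℚ_[ℓ] (endo 𝔪)))) ∧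
    -- (4) over `ℚ`
    (∀ {ℓ : ℕ} [Fact ℓ.Prime] {n : Type} [Fintype n]
      [DecidableEq n] (H : K3Hodge n) (S : Finset ℕ) (χ : GK ℚ →* ℚ_[ℓ])
      (Pol : HeightOneSpectrum (𝓞 ℚ) → ℤ[X]) (ρ : GK ℚ →* Matrix n n ℚ_[ℓ])
      (𝔪 : Submodule ℚ (Matrix n n ℚ)),
      IsK3Type (H.q.map (algebraMap ℚ ℚ_[ℓ])) S χ Pol ρ → IsMotivicLie H χ ρ 𝔪 →
      (Semisimple ρ ∧ ext ℚ_[ℓ] 𝔪 = tateLie χ ρ ↔
        ∀ Y, IsTateEnd ρ Y → Y ∈ ext ℚ_[ℓ] (endo 𝔪))) := by
  refine ⟨?_, ?_, ?_, ?_⟩
  · intro K _ _ ℓ _ n _ _ q S χ Pol ρ h hss
    exact ⟨tate_main h hss, fun Y Y' hY hY' x hx => com_main h hss hY hY' hx⟩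
  · intro n _ _ H X
    exact H.mt_main X
  · intro K _ _ ℓ _ n _ _ H S χ Pol ρ 𝔪 h hm
    refine ⟨hodge_part hm, fun hss => ?_⟩
    rw [eq_comm]
    exact tate_part h hm hss
  · intro ℓ _ n _ _ H S χ Pol ρ 𝔪 h hm
    rw [eq_comm (a := ext ℚ_[ℓ] 𝔪)]
    exact tate_part_rat h hm

end Pool.Agent.Results.MP_b8862a_ag.KThreeEndomorphisms
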