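import Mathlib
import Pool.Agent.H853.RG.Onr

/-!
# The Mumford-Tate conjecture at one prime `ℓ₀` implies it at a positive proportion of the primes, and at
# primes in all Frobenius classes it implies it at `100` percent of the primes

Let `M i` be finitely many pure motives of weight `w i` over a number field or a finitely generated field `k`
of characteristic zero (objects of the category of André), `Γ` the absolute Galois group of `k`, `ρ ℓ i` its
action on the `ℓ`-adic realization of `M i`, of dimension `n i`, and `𝔤 ℓ` the Lie algebra (over `ℚ_ℓ`) of the
motivic Galois group `G_mot` of the sum of the `M i` over the algebraic closure of `k`.  The property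
`Motivic (ρ ℓ) (𝔤 ℓ)` (structure `IsMotivic`, from the library) states the properties which are used:
`𝔤 ℓ` is a Lie algebra, it respects the direct sum, it is reductive (trace form nondegenerate, completely
reducible), it consists of all endomorphisms which kill the tensors killed by `𝔤 ℓ`, and these tensors are
Tate tensors (fixed by a subgroup of finite index of `Γ`).  Nothing is assumed on the type of `G_mot`, on
Hodge numbers and on polarizations, and nothing is assumed at the primes `ℓ` different from `ℓ₀` about the
semisimplicity of the `ℓ`-adic representations and about their endomorphisms (Tate conjecture for
`End (M i)`): both are conclusions.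

The hypotheses besides those on `ℓ₀` (`Uniform ρ 𝔤 w ℓ₀`, in `H853/RG/One.lean`) are general properties of
the realizations of motives: the rank of `𝔤 ℓ` does not depend on `ℓ`; one Frobenius element is pure of the
weights `w i`; the scalars in `𝔤 ℓ` are the multiples of the weight operator (a consequence of
polarizations); and the Frobenius elements act also on `𝔤 ℓ`, the realization of the adjoint motive, with
rational characteristic polynomials which do not depend on `ℓ`.  No Frobenius element in general position
is given: it is constructed from the conjecture at `ℓ₀`.  If the last property is not known, it is enough
instead that one Frobenius element is in general position (`MaximalRank ρ 𝔤 ∨ Regular ρ 𝔤 w`): the number of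
multiplicatively independent eigenvalues of one Frobenius element is the rank of `G_mot` (this follows from
the conjecture at `ℓ₀`, by the theorem of Serre on Frobenius tori), or one Frobenius element is strongly
regular, one is pure, and the scalars in `𝔤 ℓ` are the multiples of the weight operator (see
`H853/OS/Sys.lean`).

What is assumed at `ℓ₀` (`KnownAt ρ 𝔤 ℓ₀ φ`, in `H853/OP/Sys.lean` and `H853/OP/Defs.lean`):

* `dense`: the elements of `Γ` which have rational characteristic polynomials on the `M i`, the same at `ℓ₀` and
  at all other primes outside a finite set, are dense in `Γ`.  These are the Frobenius elements (theorems of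
  Deligne and Chebotarev), if the `M i` are direct factors of cohomology given by algebraic
  correspondences;
* `lie`: the Mumford-Tate conjecture for `ℓ₀` in its original form (Mumford, Serre), for the Lie algebras: all
  `X` in `𝔤 ℓ₀` are in the Lie algebra of the `ℓ₀`-adic Lie group which is the image of `Γ`, that is
  (`TangentFor`) there are `γ` in `Γ` and `t ≠ 0` in `ℚ_ℓ₀`, arbitrarily small, with `(ρ(γ) - 1) / t` arbitrarily
  close to `X`;
* `types`: `φ` is one automorphism of the algebraic closure of `ℚ_ℓ₀` over `ℚ_ℓ₀`, and the Lie algebra
  `𝔤 ℓ₀` contains for each `i` and `0 < d < n i` an element with simple eigenvalues on `M i`, such that no set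
  of `d` eigenvalues is stable under `φ`, and for each prime divisor `p` of `n i` such an element with a
  `φ`-stable set of eigenvalues of order prime to `p`; for `i ≠ j` some element has an eigenvalue on
  `M i` which is not an eigenvalue on `M j`.

The condition `types` is a condition on the group `G_mot` and its representations only.  For example let
`G_mot` be split over `ℚ_ℓ₀`, and `φ` a Frobenius automorphism.  For each element `s` of the Weyl group
`G_mot` has a maximal torus on the weights of which `φ` acts as `s`.  So for pairwise different minuscule
representations `M i` the condition means that for each `0 < d < n i` some element of the Weyl group has no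
stable set of `d` weights of `M i`.  This is so for the standard representations of the general linear group,
of the groups of symplectic similitudes, and of the groups of even orthogonal similitudes in at least six
variables, for the minuscule representations of `E₆` (`27` weights: orbits `9, 9, 9` and `1, 1, 5, 5, 5, 5, 5`)
and `E₇` (`56` weights: orbits `14, 14, 14, 14` and `1, 1, 9, …, 9` and `2, 18, 18, 18`), for exterior
powers (checked up to dimension `200`) and half-spin representations (checked up to dimension `128`).

**Theorem.** Let `N` be the sum of the `n i`, and let `KnownAt` be true for one prime `ℓ₀` and one `φ`.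

(1) There are a finite Galois extension `L` of `ℚ` of degree
at most `(2 N ^ 2)!` and an automorphism `τ` of `L`, induced by `φ`, such that the conjecture (`MumfordTate`)
holds for all prime numbers `ℓ`, outside a finite set, for which `τ` is induced by an automorphism of the
algebraic closure of `ℚ_ℓ` (so for the primes with the same Frobenius class in `L` as `ℓ₀`, if `ℓ₀` is not
ramified in `L` and `φ` is a Frobenius automorphism): the `ℓ`-adic realization is semisimple, for all
subgroups of finite index, and the Tate tensors in all degrees are exactly the tensors killed by `𝔤 ℓ`,
that is, the connected component of the `ℓ`-adic monodromy group is `G_mot`.  These primes have lower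
density at least `1 / (2 N ^ 2)!`.

(2) If for every finite Galois extension of `ℚ` each automorphism is induced by a `φ` as in (1), for a prime
`ℓ₀` which depends on the automorphism, then the conjecture holds for a set of primes of density ONE.  For
example, it is sufficient that the conjecture is known in the form `lie`, with the condition `types` for the
Frobenius automorphisms, for a set of primes, of arbitrarily small density, which contains infinitely many
primes in each Frobenius class of each number field.

For abelian varieties the Mumford-Tate conjecture at one prime implies the conjecture at all primes (Larsen
and Pink), by the theorem of Faltings on endomorphisms and semisimplicity; the theorems of Larsen and Pink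
on the independence of `ℓ` in other compatible systems concern semisimple representations.  Over `ℚ` (or if
the places above some prime are independent) the library modules `MP_8f1292_ag.MaximalFrobeniusTorus`,
`MP_b8862a_ag.EndomorphismsSuffice` and `MP_8f1292_ag.SemisimpleAtEveryPrime`, with the theorem of Serre on
maximal Frobenius tori, give the semisimplicity at the other primes, and the equivalence of the conjecture
with the Tate conjecture for endomorphisms, which remains unknown there; here it is proved, for all fields `k`.
Our `MP_b8862a_ag.FrobeniusOrbits` proves the conjecture at a positive proportion of the primes from the orbits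
of automorphisms on the eigenvalues of several Frobenius elements; here these Frobenius elements, and
their fields, are constructed from the conjecture at `ℓ₀`.

The proof.  Let `X` be in `𝔤 ℓ₀` with simple eigenvalues on `M i`.  There is a Frobenius element `γ` such that
`A = (ρ(γ) - 1) / t` is as close to `X` as we like, with small `t`.  By a form of Krasner's lemma the
eigenvalues of `A` correspond to those of `X`, compatibly with all automorphisms.  The eigenvalues of `γ` are
`1 + t a`, for the eigenvalues `a` of `A`, and quotients of two of them are so close to one that they are not
roots of unity.  So the polynomial of `γ` is neat, and has the same orbits of `φ` as the one of `X`.  One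
takes such elements for the finitely many pairs `(i, d)` and `(i, p)`; the field `L` generated by the roots of
their polynomials has degree at most `(2 N ^ 2)!`, and `φ` induces an automorphism `τ` on `L`.  Now the theorem
`FrobeniusOrbits` can be used for all `ℓ` for which `τ` is induced by an automorphism of the algebraic
closure of `ℚ_ℓ`.  The strongly regular Frobenius element is constructed in our files
`H853.RG`: there is a Frobenius element `γ` with `(ρ(γ) - 1) / t` close to a regular
element of a Cartan subalgebra of `𝔤 ℓ₀` with pairwise different values of the roots; then its
characteristic polynomial on `𝔤 ℓ₀`, which is rational and the same for all `ℓ`, has no multiple root and no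
root of unity as a root, except `1`, the multiplicity of which is the rank.  For (2) one starts with a finite Galois extension `F` of `ℚ`; for each automorphism `g`
of `F` there are `L` and `τ` as in (1) such that `g` and `τ` agree on the intersection of `F` and `L`; in the
compositum of `F` with all these `L` a proportion of at least `1 / (2 N ^ 2)!` of the automorphisms which extend
`g` also extend `τ`, and an induction gives density one (theorem of Chebotarev, in the library).
-/

set_option autoImplicit false

namespace Pool.Agent.Results.MP_b8862a_ag.OnePrime

open Pool.Agent.Y114.RM Pool.Agent.H853.OS Pool.Agent.H853.OP Pool.Agent.W522.C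
open Pool.Agent.H853.RG (Uniform regular_of_uniform)

theorem result {Γ : Type} [Group Γ] [TopologicalSpace Γ] [IsTopologicalGroup Γ] [CompactSpace Γ]
    {ι : Type} [Fintype ι] [DecidableEq ι] {n : ι → ℕ}
    -- the `ℓ`-adic realizations, and the Lie algebras of the motivic Galois group, for all `ℓ`
    (ρ : ∀ (ℓ : ℕ) [Fact ℓ.Prime], Reps Γ n ℓ) (hρ : ∀ (ℓ : ℕ) [Fact ℓ.Prime], Conts (ρ ℓ))
    (𝔤 : ∀ (ℓ : ℕ) [Fact ℓ.Prime], EndSpace n ℓ)
    (h𝔤 : ∀ (ℓ : ℕ) [Fact ℓ.Prime], Motivic (ρ ℓ) (𝔤 ℓ))
    -- the weights
    (w : ι → ℤ)
    -- one prime
    {ℓ₀ : ℕ} [Fact ℓ₀.Prime] (φ : LocalAut ℓ₀) (h : KnownAt ρ 𝔤 ℓ₀ φ)
    -- general properties of motives, or one Frobenius element in general position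
    (hb : Uniform ρ 𝔤 w ℓ₀ ∨ MaximalRank ρ 𝔤 ∨ Regular ρ 𝔤 w) :
    -- primes in the same class
    (HoldsInClassOf ρ 𝔤 (2 * (∑ i, n i) ^ 2).factorial φ ∧
      LowerDensity (goodPrimes ρ 𝔤) (1 / (2 * (∑ i, n i) ^ 2).factorial)) ∧
    -- primes in all classes
    (KnownInAllClasses ρ 𝔤 → LowerDensity (goodPrimes ρ 𝔤) 1) := by
  have hb' : MaximalRank ρ 𝔤 ∨ Regular ρ 𝔤 w := by
    rcases hb with h1 | h1
    · exact Or.inr (regular_of_uniform hρ h𝔤 h.lie h1)
    · exact h1
  exact ⟨class_result ρ hρ 𝔤 h𝔤 w hb' φ h, all_classes_result ρ hρ 𝔤 h𝔤 w hb'⟩

end Pool.Agent.Results.MP_b8862a_ag.OnePrime
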